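import Pool.Agent.U239.BL.Stm

/-!
Project BL (helper239), part KER (helper373): small representatives modulo `q` in the lattice of the
solutions of `k` linear equations.
-/

set_option autoImplicit false

namespace Pool.Agent.U373.BL.KER

open scoped Classical
open NumberField Module Matrix
open Pool.Agent.N852.GR Pool.Agent.U239.BL

/-- `k` independent rows have `k` columns with nonzero determinant -/
lemma exists_cols {K : Type} [Field K] {k n : ℕ} (U : Matrix (Fin k) (Fin n) K)
    (h : LinearIndependent K U.row) : ∃ s : Fin k → Fin n, (U.submatrix id s).det ≠ 0 := by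
  have hr : U.rank = k := by
    rw [h.rank_matrix, Fintype.card_fin]
  rw [rank_eq_finrank_span_cols] at hr
  obtain ⟨f, hf1, hf2, hf3⟩ := Submodule.exists_fun_fin_finrank_span_eq K (Set.range U.col)
  choose s hs using hf1
  refine ⟨fun j => s (Fin.cast hr.symm j), ?_⟩
  have hl : LinearIndependent K (U.submatrix id (fun j => s (Fin.cast hr.symm j))).col := by
    have e : (U.submatrix id (fun j => s (Fin.cast hr.symm j))).col =
        f ∘ (Fin.cast hr.symm) := by
      funext j
      simp only [Function.comp]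
      rw [← hs]
      rfl
    rw [e]
    exact hf3.comp _ (Fin.cast_injective _)
  rw [linearIndependent_cols_iff_isUnit, Matrix.isUnit_iff_isUnit_det] at hl
  exact hl.ne_zero

variable {F : Type} [Field F] [NumberField F]

lemma place_le {n : ℕ} (z : Fin n → F) (i : Fin n) (w : InfinitePlace F) : w (z i) ≤ ‖em z‖ := by
  have h1 : ‖em z i‖ ≤ ‖em z‖ := norm_le_pi_norm (em z) i
  have h2 : mixedEmbedding.normAtPlace w (em z i) ≤ ‖em z i‖ := by
    rw [mixedEmbedding.norm_eq_sup'_normAtPlace]
    exact Finset.le_sup' (fun w => mixedEmbedding.normAtPlace w (em z i)) (Finset.mem_univ w)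
  have h3 : mixedEmbedding.normAtPlace w (em z i) = w (z i) :=
    mixedEmbedding.normAtPlace_apply w (z i)
  rw [← h3]
  exact h2.trans h1

lemma em_le {n : ℕ} (x : Fin n → F) (B : ℝ) (hB : 0 ≤ B)
    (h : ∀ (i : Fin n) (w : InfinitePlace F), w (x i) ≤ B) : ‖em x‖ ≤ B := by
  rw [pi_norm_le_iff_of_nonneg hB]
  intro i
  rw [mixedEmbedding.norm_eq_sup'_normAtPlace]
  refine Finset.sup'_le _ _ fun w _ => ?_
  have h3 : mixedEmbedding.normAtPlace w (em x i) = w (x i) :=
    mixedEmbedding.normAtPlace_apply w (x i)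
  rw [h3]
  exact h i w

lemma em_sub {n : ℕ} (a b : Fin n → F) : em (a - b) = em a - em b := by
  funext i
  show mixedEmbedding F ((a - b) i) = mixedEmbedding F (a i) - mixedEmbedding F (b i)
  rw [Pi.sub_apply, map_sub]

/-- the matrix of the choice of columns -/
def ch (K : Type) [Field K] {k n : ℕ} (s : Fin k → Fin n) : Matrix (Fin n) (Fin k) K :=
  Matrix.of fun l j => if s j = l then 1 else 0

lemma mul_ch {k n : ℕ} (U : Matrix (Fin k) (Fin n) F) (s : Fin k → Fin n) :
    U * ch F s = U.submatrix id s := by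
  ext i j
  rw [Matrix.mul_apply]
  unfold ch
  simp only [Matrix.of_apply, mul_ite, mul_one, mul_zero, Finset.sum_ite_eq, Finset.mem_univ,
    if_true, Matrix.submatrix_apply, id]

/-- the matrix `Δ - E adj(B) U` -/
noncomputable def PM {k n : ℕ} (U : Matrix (Fin k) (Fin n) F) (s : Fin k → Fin n) :
    Matrix (Fin n) (Fin n) F :=
  (U.submatrix id s).det • (1 : Matrix (Fin n) (Fin n) F) -
    ch F s * (U.submatrix id s).adjugate * U

lemma mul_PM {k n : ℕ} (U : Matrix (Fin k) (Fin n) F) (s : Fin k → Fin n) :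
    U * PM U s = 0 := by
  unfold PM
  rw [Matrix.mul_sub, Matrix.mul_smul, Matrix.mul_one, ← Matrix.mul_assoc, ← Matrix.mul_assoc,
    mul_ch, Matrix.mul_adjugate, Matrix.smul_mul, Matrix.one_mul, sub_self]

lemma PM_mulVec {k n : ℕ} (U : Matrix (Fin k) (Fin n) F) (s : Fin k → Fin n) (y : Fin n → F)
    (hy : U *ᵥ y = 0) : PM U s *ᵥ y = (U.submatrix id s).det • y := by
  unfold PM
  rw [Matrix.sub_mulVec, Matrix.smul_mulVec, Matrix.one_mulVec, ← Matrix.mulVec_mulVec, hy,
    Matrix.mulVec_zero, sub_zero]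

/-- the entries of `adj(B) U` are determinants -/
lemma adj_entry {k n : ℕ} (U : Matrix (Fin k) (Fin n) F) (s : Fin k → Fin n) (j : Fin k)
    (m : Fin n) : ((U.submatrix id s).adjugate * U) j m =
      ((U.submatrix id s).updateCol j (fun i => U i m)).det := by
  have h := congrFun (Matrix.cramer_eq_adjugate_mulVec (U.submatrix id s) (fun i => U i m)) j
  rw [Matrix.cramer_apply] at h
  rw [h]
  rfl

lemma PM_le {k n : ℕ} (U : Matrix (Fin k) (Fin n) F) (s : Fin k → Fin n) (w : InfinitePlace F)
    (X : ℝ) (hX : ∀ i j, w (U i j) ≤ X) (hX0 : 0 ≤ X) (l m : Fin n) :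
    w (PM U s l m) ≤ (k + 1) * (k.factorial * X ^ k) := by
  have hdet : ∀ A : Matrix (Fin k) (Fin k) F, (∀ i j, w (A i j) ≤ X) →
      w A.det ≤ k.factorial * X ^ k := by
    intro A hA
    have h := Matrix.det_le (A := A) (abv := w.1) (x := X) hA
    rw [Fintype.card_fin, nsmul_eq_mul] at h
    exact h
  have h0 : (0 : ℝ) ≤ k.factorial * X ^ k := by positivity
  have h1 : w ((U.submatrix id s).det * (1 : Matrix (Fin n) (Fin n) F) l m) ≤
      k.factorial * X ^ k := by
    by_cases hlm : l = m
    · rw [hlm, Matrix.one_apply_eq, mul_one]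
      exact hdet _ (fun i j => hX i (s j))
    · rw [Matrix.one_apply_ne hlm, mul_zero, map_zero]
      exact h0
  have h2 : w ((ch F s * (U.submatrix id s).adjugate * U) l m) ≤ k * (k.factorial * X ^ k) := by
    rw [Matrix.mul_assoc, Matrix.mul_apply]
    calc w (∑ j, ch F s l j * ((U.submatrix id s).adjugate * U) j m)
        ≤ ∑ j, w (ch F s l j * ((U.submatrix id s).adjugate * U) j m) :=
          w.1.sum_le _ _
      _ ≤ ∑ _j : Fin k, (k.factorial * X ^ k : ℝ) := by
          refine Finset.sum_le_sum fun j _ => ?_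
          rw [adj_entry]
          have h3 : w (((U.submatrix id s).updateCol j (fun i => U i m)).det) ≤
              k.factorial * X ^ k := by
            refine hdet _ (fun i j' => ?_)
            rw [Matrix.updateCol_apply]
            split_ifs
            · exact hX i m
            · exact hX i (s j')
          rw [map_mul]
          unfold ch
          rw [Matrix.of_apply]
          split_ifs
          · rw [map_one, one_mul]; exact h3
          · rw [map_zero, zero_mul]; exact h0
      _ = k * (k.factorial * X ^ k) := by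
          rw [Finset.sum_const, Finset.card_univ, Fintype.card_fin, nsmul_eq_mul]
  have h4 : PM U s l m = (U.submatrix id s).det * (1 : Matrix (Fin n) (Fin n) F) l m +
      -((ch F s * (U.submatrix id s).adjugate * U) l m) := by
    unfold PM
    rw [Matrix.sub_apply, Matrix.smul_apply, smul_eq_mul, sub_eq_add_neg]
  rw [h4]
  have h5 : w (-((ch F s * (U.submatrix id s).adjugate * U) l m)) =
      w ((ch F s * (U.submatrix id s).adjugate * U) l m) := w.1.map_neg _
  calc w ((U.submatrix id s).det * (1 : Matrix (Fin n) (Fin n) F) l m +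
      -((ch F s * (U.submatrix id s).adjugate * U) l m))
      ≤ w ((U.submatrix id s).det * (1 : Matrix (Fin n) (Fin n) F) l m) +
        w (-((ch F s * (U.submatrix id s).adjugate * U) l m)) := w.1.add_le _ _
    _ ≤ k.factorial * X ^ k + k * (k.factorial * X ^ k) := by rw [h5]; exact add_le_add h1 h2
    _ = (k + 1) * (k.factorial * X ^ k) := by ring

/-- a matrix over `F` with integral entries: the same matrix over `𝓞 F` -/
noncomputable def UI {k n : ℕ} (u : Fin k → Fin n → 𝓞 F) : Matrix (Fin k) (Fin n) F :=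
  Matrix.of fun i j => (u i j : F)

lemma PM_int {k n : ℕ} (u : Fin k → Fin n → 𝓞 F) (s : Fin k → Fin n) :
    ∃ P : Matrix (Fin n) (Fin n) (𝓞 F), P.map (algebraMap (𝓞 F) F) = PM (UI u) s := by
  let V : Matrix (Fin k) (Fin n) (𝓞 F) := Matrix.of u
  let E : Matrix (Fin n) (Fin k) (𝓞 F) := Matrix.of fun l j => if s j = l then 1 else 0
  refine ⟨(V.submatrix id s).det • (1 : Matrix (Fin n) (Fin n) (𝓞 F)) -
    E * (V.submatrix id s).adjugate * V, ?_⟩
  have hV : V.map (algebraMap (𝓞 F) F) = UI u := by
    ext i j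
    rfl
  have hB : (V.submatrix id s).map (algebraMap (𝓞 F) F) = (UI u).submatrix id s := by
    ext i j
    rfl
  have hE : E.map (algebraMap (𝓞 F) F) = ch F s := by
    ext l j
    simp only [E, ch, Matrix.map_apply, Matrix.of_apply]
    split_ifs <;> simp
  have hadj : (V.submatrix id s).adjugate.map (algebraMap (𝓞 F) F) =
      ((UI u).submatrix id s).adjugate := by
    rw [← hB]
    exact (RingHom.map_adjugate (algebraMap (𝓞 F) F) (V.submatrix id s))
  have hdet : algebraMap (𝓞 F) F (V.submatrix id s).det = ((UI u).submatrix id s).det := by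
    rw [← hB]
    exact (RingHom.map_det (algebraMap (𝓞 F) F) (V.submatrix id s))
  unfold PM
  rw [← hadj, ← hE, ← hdet]
  conv_rhs => rw [← hV]
  rw [← Matrix.map_mul, ← Matrix.map_mul]
  ext i j
  simp only [Matrix.map_apply, Matrix.sub_apply, Matrix.smul_apply, smul_eq_mul, map_sub, map_mul,
    Matrix.one_apply]
  split_ifs <;> simp

/-- **package KER** -/
theorem t_KER (F : Type) [Field F] [NumberField F] : S_KER F := by
  rintro ⟨C0, hC0, hrnd⟩ n k
  refine ⟨n * ((k + 1) * k.factorial) * C0 + 1, by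
    have : (0 : ℝ) ≤ n * ((k + 1) * k.factorial) * C0 := by positivity
    linarith, ?_⟩
  intro u X hX hind hu q hq y hy
  have hX0 : 0 ≤ X := by linarith
  have hq0 : (0 : ℝ) < q := by exact_mod_cast hq
  obtain ⟨s, hs⟩ := exists_cols (UI u) hind
  obtain ⟨P, hP⟩ := PM_int u s
  set Δ : F := ((UI u).submatrix id s).det with hΔ
  -- the kernel in terms of matrices over `F`
  have hker : ∀ z : Fin n → 𝓞 F, z ∈ KL u ↔ UI u *ᵥ co z = 0 := by
    intro z
    constructor
    · intro h
      funext i
      have h1 : u i ⬝ᵥ z = 0 := h i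
      have h2 : algebraMap (𝓞 F) F (u i ⬝ᵥ z) = 0 := by rw [h1, map_zero]
      rw [dotProduct, map_sum] at h2
      rw [Pi.zero_apply, ← h2]
      simp only [Matrix.mulVec, dotProduct, UI, Matrix.of_apply, co, map_mul]
    · intro h i
      have h1 := congrFun h i
      have h2 : algebraMap (𝓞 F) F (u i ⬝ᵥ z) = 0 := by
        rw [dotProduct, map_sum]
        rw [Pi.zero_apply] at h1
        rw [← h1]
        simp only [Matrix.mulVec, dotProduct, UI, Matrix.of_apply, co, map_mul]
      exact (map_eq_zero_iff _ (RingOfIntegers.coe_injective (K := F))).1 h2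
  have hcoP : ∀ x : Fin n → 𝓞 F, co (P *ᵥ x) = PM (UI u) s *ᵥ co x := by
    intro x
    rw [← hP]
    funext i
    simp only [co, Matrix.mulVec, dotProduct, Matrix.map_apply, map_sum, map_mul]
  have hw0 : ∀ x : Fin n → 𝓞 F, P *ᵥ x ∈ KL u := by
    intro x
    rw [hker, hcoP, Matrix.mulVec_mulVec, mul_PM, Matrix.zero_mulVec]
  set z : Fin n → F := ((q : F) * Δ)⁻¹ • co y with hz
  obtain ⟨x, hx⟩ := hrnd n z
  have hqF : (q : F) ≠ 0 := by
    have : q ≠ 0 := by omega
    exact_mod_cast this
  refine ⟨y - q • (P *ᵥ x), sub_mem hy (nsmul_mem (hw0 x) q), P *ᵥ x, hw0 x, by abel, ?_⟩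
  have hcov : co (y - q • (P *ᵥ x)) = (q : F) • (PM (UI u) s *ᵥ (z - co x)) := by
    have h1 : co (y - q • (P *ᵥ x)) = co y - (q : F) • co (P *ᵥ x) := by
      funext i
      simp [co]
    have h2 : PM (UI u) s *ᵥ z = (q : F)⁻¹ • co y := by
      rw [hz, Matrix.mulVec_smul, PM_mulVec _ _ _ ((hker y).1 hy), smul_smul]
      congr 1
      rw [← hΔ]
      field_simp
    rw [h1, hcoP, Matrix.mulVec_sub, h2, smul_sub, smul_smul, mul_inv_cancel₀ hqF, one_smul]
  have hio : io (y - q • (P *ᵥ x)) = em (co (y - q • (P *ᵥ x))) := rfl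
  rw [hio, hcov]
  refine em_le _ _ (by positivity) (fun i w => ?_)
  have hU : ∀ i j, w (UI u i j) ≤ X := by
    intro i j
    exact (place_le (co (u i)) j w).trans (hu i)
  have hzx : ∀ m, w ((z - co x) m) ≤ C0 := by
    intro m
    refine (place_le (z - co x) m w).trans ?_
    rw [em_sub]
    exact hx
  have hwq : w (q : F) = q := by
    simp
  rw [Pi.smul_apply, smul_eq_mul, map_mul, hwq]
  refine mul_le_mul_of_nonneg_left ?_ hq0.le
  have hsum : (PM (UI u) s *ᵥ (z - co x)) i = ∑ m, PM (UI u) s i m * (z - co x) m := rfl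
  rw [hsum]
  calc w (∑ m, PM (UI u) s i m * (z - co x) m)
      ≤ ∑ m, w (PM (UI u) s i m * (z - co x) m) := w.1.sum_le _ _
    _ ≤ ∑ _m : Fin n, ((k + 1) * (k.factorial * X ^ k)) * C0 := by
        refine Finset.sum_le_sum fun m _ => ?_
        rw [map_mul]
        exact mul_le_mul (PM_le (UI u) s w X hU hX0 i m) (hzx m) (apply_nonneg w _) (by positivity)
    _ = (n * ((k + 1) * k.factorial) * C0) * X ^ k := by
        rw [Finset.sum_const, Finset.card_univ, Fintype.card_fin, nsmul_eq_mul]
        ring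
    _ ≤ (n * ((k + 1) * k.factorial) * C0 + 1) * X ^ k := by
        have : 0 ≤ X ^ k := by positivity
        nlinarith

end Pool.Agent.U373.BL.KER
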